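import Pool.Agent.H970.RG.Defs

/-! # Level zero of the renormalisation (RG970-2) -/

set_option autoImplicit false

noncomputable section

namespace Pool.Agent.H282.RG

open MvPolynomial Pool.Agent.H5R2.ON Pool.Agent.H717R2.ON3 Pool.Agent.H983R2.ONJ
open Pool.Agent.Y13.QM Pool.Agent.H970.RG

/-- second moment of a score localised where `H` does not depend on the configuration -/
theorem sc_mom {V ι : Type} [Fintype V] [DecidableEq V] [Fintype ι] {G : Gr V ι} {β : ℝ}
    {Λ : Finset V} (W : WFun G β Λ) (hβ : 0 ≤ β) {f : V → ℝ}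
    (hfΛ : ∀ x, x ∉ Λ → f x = 0) {A : Set V} (hfA : ∀ x ∈ A, f x = 0) {H : Alg V}
    (hH : Loc A H) (hpos : NN H) (i : Fin 3) :
    W.E (Sc G β f i ^ 2 * H) ≤ β * En G f * W.E H := by
  have h1 : W.E (Sc G β f i ^ 2 * H) = W.E (R f i (Sc G β f i * H)) := by
    rw [W.ibpR hfΛ i (Sc G β f i * H)]
    congr 1
    ring
  have h2 : R f i H = 0 := by
    have h0 : R f i H = R (fun _ => (0 : ℝ)) i H := R_congr_loc hH (fun x hx => hfA x hx) i
    rw [h0, Pool.Agent.H717R2.ON3.R_apply]
    refine Finset.sum_eq_zero fun x _ => ?_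
    rw [zero_smul]
  have h3 : R f i (Sc G β f i * H) = ∑ e, (β * grad G f e ^ 2) • (H * eps G e i) := by
    rw [Derivation.leibniz, h2, smul_zero, zero_add, R_Sc_self, smul_eq_mul, Finset.mul_sum]
    refine Finset.sum_congr rfl fun e _ => ?_
    simp only [smul_eq_C_mul, map_mul, map_pow]
    ring
  have h4 : ∀ e, W.E (H * eps G e i) ≤ W.E H := by
    intro e
    refine W.mono (fun σ hσ => ?_)
    rw [map_mul]
    have a1 := WFun.eval_eps_le (G := G) e i σ hσ
    have a2 := hpos σ hσ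
    nlinarith
  rw [h1, h3, map_sum]
  have h5 : β * En G f * W.E H = ∑ e, (β * grad G f e ^ 2) * W.E H := by
    unfold En
    rw [← Finset.sum_mul, ← Finset.mul_sum]
  rw [h5]
  refine Finset.sum_le_sum (fun e _ => ?_)
  rw [map_smul, smul_eq_mul]
  exact mul_le_mul_of_nonneg_left (h4 e) (by positivity)

theorem sup_cur {V ι : Type} {G : Gr V ι} {A : Set V} (e : ι) (hs : G.s e ∈ A)
    (ht : G.t e ∈ A) (g : Fin 3) :
    cur G e g ∈ MvPolynomial.supported ℝ {v : V × Fin 3 | v.1 ∈ A} := by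
  have hX : ∀ (x : V) (_ : x ∈ A) (i : Fin 3),
      (X (x, i) : Alg V) ∈ MvPolynomial.supported ℝ {v : V × Fin 3 | v.1 ∈ A} := by
    intro x hx i
    rw [MvPolynomial.X_mem_supported]
    exact hx
  unfold cur
  exact sub_mem (mul_mem (hX _ hs _) (hX _ ht _)) (mul_mem (hX _ hs _) (hX _ ht _))

theorem sup_S1 {L : ℕ} [NeZero L] {ι : Type} [Fintype ι] {G : Gr (Tor L) ι} {β ρ K : ℝ}
    (hG : Nice G β ρ K) (hρ : 0 ≤ ρ) (y : Tor L) (g : Fin 3) :
    Sup {x | tnorm (x - y) ≤ ρ} (S1 G β y g) := by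
  unfold Sup S1 Sc JJ
  refine Subalgebra.sum_mem _ fun e _ => ?_
  by_cases h : G.s e = y ∨ G.t e = y
  · have h0 : tnorm (G.s e - y) ≤ 0 ∨ tnorm (G.t e - y) ≤ 0 := by
      rcases h with h | h
      · left
        rw [h, sub_self, tnorm_zero]
      · right
        rw [h, sub_self, tnorm_zero]
    have h1 := edge_nearJ hG e y 0 h0 hρ
    rw [zero_add] at h1
    exact Subalgebra.smul_mem _ (sup_cur e h1.1 h1.2 g) _
  · push Not at h
    have h1 : grad G (Pi.single y (1 : ℝ)) e = 0 := by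
      unfold grad
      rw [Pi.single_eq_of_ne h.1, Pi.single_eq_of_ne h.2, sub_zero]
    rw [h1, mul_zero, zero_smul]
    exact zero_mem _

theorem zero : S_zero := by
  obtain ⟨K₁, hK₁, hE⟩ := energyJ
  refine ⟨27 * K₁, by positivity, ?_⟩
  intro L _ ι _ G β ρ K hG hρ hK Λ W
  have hβ := hG.beta
  have hρ0 : 0 ≤ ρ := by linarith
  refine ⟨?_, ?_, ?_, ?_, ?_, ?_, ?_⟩
  · intro g
    have h1 := a2_Sc_sum G β (fun _ => (1 : ℝ)) g
    simp only [one_smul] at h1
    rw [h1]
    unfold Sc JJ grad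
    refine Finset.sum_eq_zero fun e _ => ?_
    rw [sub_self, mul_zero, zero_smul]
  · intro g
    unfold Pool.Agent.H717R2.ON3.R
    simp only [one_smul]
  · intro y
    exact covV_Sc (Pi.single y 1)
  · intro y g
    exact sup_S1 hG hρ0 y g
  · intro y g F A hF hA
    refine hF y (fun hy => ?_) g
    have h1 := hA y hy
    rw [sub_self, tnorm_zero] at h1
    linarith
  · intro y hy g F
    refine W.ibp y (hy y ?_) g F
    rw [sub_self, tnorm_zero]
    exact hρ0
  · intro r hr a hΛ s f hs hf hlip H hH hpos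
    have hr0 : 0 < r := by linarith
    have hfΛ : ∀ x, x ∉ Λ → f x = 0 := by
      intro x hx
      by_contra hc
      apply hx
      apply hΛ
      have := hf x hc
      linarith
    have hfA : ∀ x ∈ {x : Tor L | 2 * r < tnorm (x - a)}, f x = 0 := by
      intro x hx
      by_contra hc
      have h1 := hf x hc
      have h2 : 2 * r < tnorm (x - a) := hx
      linarith
    have hEH : 0 ≤ W.E H := W.pos H hpos
    have h1 : ∀ g ∈ (Finset.univ : Finset (Fin 3)),
        W.E (JS (fun y g => S1 G β y g) f g ^ 2 * H) ≤ β * En G f * W.E H := by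
      intro g _
      have h2 : JS (fun y g => S1 G β y g) f g = Sc G β f g := a2_Sc_sum G β f g
      rw [h2]
      exact sc_mom W hβ hfΛ hfA hH hpos g
    have h2 := Finset.sum_le_sum h1
    rw [Finset.sum_const, Finset.card_univ, Fintype.card_fin, nsmul_eq_mul] at h2
    push_cast at h2
    refine h2.trans ?_
    have h3 : β * En G f ≤ 9 * K₁ * K * s ^ 2 := by
      refine (hE L G β ρ K hG hρ0 hK f a r (s / r) hr0.le (by positivity) hlip hf).trans ?_
      calc K₁ * K * (1 + r + ρ) ^ 2 * (s / r) ^ 2 ≤ K₁ * K * (3 * r) ^ 2 * (s / r) ^ 2 := by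
            have : 1 + r + ρ ≤ 3 * r := by linarith
            gcongr
        _ = 9 * K₁ * K * s ^ 2 := by
            field_simp
            ring
    have h4 := mul_le_mul_of_nonneg_right h3 hEH
    linarith

end Pool.Agent.H282.RG
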